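import Pool.Agent.J6H84.LM.Stm

set_option autoImplicit false

/-! Project LM (helper84), module COORD (helper10): coordinates in which `m` given members are coordinate functions. -/

namespace Pool.Agent.J6H10.LM

open Finset Pool.Agent.H430R2.PermCubes Pool.Agent.J6H84.LM

/-- the cube depends only on the value of a linear functional -/
theorem lin_iff {K : Type} [Field K] {m n : ℕ} (φ : (Fin m → Fin n) ≃ (Fin m → K))
    (D : (Fin m → Fin n) → Fin n) :
    LinIn φ D ↔ ∃ L : (Fin m → K) →ₗ[K] K, ∀ x y, L (φ x) = L (φ y) → D x = D y := by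
  constructor
  · rintro ⟨a, ha⟩
    refine ⟨∑ i, a i • LinearMap.proj (R := K) (φ := fun _ : Fin m => K) i, fun x y h => ha x y ?_⟩
    simpa [LinearMap.sum_apply] using h
  · rintro ⟨L, hL⟩
    refine ⟨fun i => L (fun j => if i = j then 1 else 0), fun x y h => hL x y ?_⟩
    rw [LinearMap.pi_apply_eq_sum_univ L (φ x), LinearMap.pi_apply_eq_sum_univ L (φ y)]
    simp only [smul_eq_mul]
    simp only [mul_comm (φ x _), mul_comm (φ y _)]
    exact h

/-- **Module COORD** -/
theorem main : S_Coord := by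
  intro K _ _ m k C hC φ e he hlin
  choose a ha using hlin
  obtain ⟨A, hA⟩ : ∃ A : (Fin m → K) →ₗ[K] (Fin m → K), ∀ v j, A v j = ∑ i, a j i * v i := by
    refine ⟨Matrix.mulVecLin (Matrix.of a), fun v j => ?_⟩
    rfl
  have hinj : Function.Injective A := by
    rw [injective_iff_map_eq_zero]
    intro v hv
    have h1 : φ.symm v = φ.symm 0 := by
      refine (hC e he).1 (funext fun j => ha j _ _ ?_)
      rw [Equiv.apply_symm_apply, Equiv.apply_symm_apply, ← hA, ← hA, hv, map_zero]
    exact φ.symm.injective h1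
  obtain ⟨B, hB⟩ : ∃ B : (Fin m → K) ≃ₗ[K] (Fin m → K), ∀ v, B v = A v :=
    ⟨LinearEquiv.ofInjectiveEndo A hinj, fun v => rfl⟩
  have hψ : ∀ j x y, B (φ x) j = B (φ y) j → C (e j) x = C (e j) y := by
    intro j x y h
    rw [hB, hB, hA, hA] at h
    exact ha j x y h
  refine ⟨φ.trans B.toEquiv, fun D => ?_, fun j x y => ⟨fun h => hψ j x y h, fun h => ?_⟩⟩
  · rw [lin_iff, lin_iff]
    constructor
    · rintro ⟨L, hL⟩
      refine ⟨L.comp B.symm.toLinearMap, fun x y h => hL x y ?_⟩
      have h' : L (B.symm (B (φ x))) = L (B.symm (B (φ y))) := h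
      rwa [LinearEquiv.symm_apply_apply, LinearEquiv.symm_apply_apply] at h'
    · rintro ⟨L, hL⟩
      exact ⟨L.comp B.toLinearMap, fun x y h => hL x y h⟩
  · classical
    obtain ⟨ψ, hψd⟩ : ∃ ψ : (Fin m → Fin (Fintype.card K)) ≃ (Fin m → K), ψ = φ.trans B.toEquiv := ⟨_, rfl⟩
    rw [← hψd]
    have hf : ∀ x y, ψ x j = ψ y j → C (e j) x = C (e j) y := by
      intro x y h
      rw [hψd] at h
      exact hψ j x y h
    let g : K → Fin (Fintype.card K) := fun t => C (e j) (ψ.symm (Function.update 0 j t))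
    have hg : ∀ x, C (e j) x = g (ψ x j) := by
      intro x
      refine hf _ _ ?_
      rw [Equiv.apply_symm_apply, Function.update_self]
    have hs : Function.Surjective g := by
      intro v
      obtain ⟨x, hx⟩ := (hC e he).2 (fun _ => v)
      refine ⟨ψ x j, ?_⟩
      rw [← hg]
      exact congrFun hx j
    have hi : Function.Injective g :=
      ((Fintype.bijective_iff_surjective_and_card g).2 ⟨hs, by rw [Fintype.card_fin]⟩).1
    rw [hg, hg] at h
    exact hi h

end Pool.Agent.J6H10.LM
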