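import Pool.Agent.J6H84.LM.StmS

set_option autoImplicit false

/-! Project LM (helper84), module SQ (helper10): the number of nonzero squares. -/

namespace Pool.Agent.J6H10.LM.Squares

open Finset Pool.Agent.J6H84.LM

/-- **Module SQ** -/
theorem main : S_Sq := by
  classical
  intro p _ hp
  have hc : ringChar (ZMod p) ≠ 2 := by
    rw [ZMod.ringChar_zmod_n]
    exact hp
  have h := quadraticChar_sum_zero (F := ZMod p) hc
  have h1 : ∀ a : ZMod p, quadraticChar (ZMod p) a =
      (if a ≠ 0 ∧ IsSquare a then 1 else 0) - (if ¬ IsSquare a then 1 else 0) := by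
    intro a
    rw [quadraticChar_apply, quadraticCharFun]
    by_cases ha : a = 0
    · subst ha
      simp
    · by_cases hs : IsSquare a <;> simp [ha, hs]
  simp only [h1] at h
  rw [sum_sub_distrib, sum_boole, sum_boole] at h
  have h2 : ∑ a : ZMod p, (1 : ℤ) = ∑ a : ZMod p, ((if a ≠ 0 ∧ IsSquare a then 1 else 0) +
      ((if ¬ IsSquare a then 1 else 0) + (if a = 0 then 1 else 0))) := by
    refine sum_congr rfl fun a _ => ?_
    by_cases ha : a = 0
    · subst ha
      simp
    · by_cases hs : IsSquare a <;> simp [ha, hs]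
  rw [sum_add_distrib, sum_add_distrib, sum_boole, sum_boole, sum_ite_eq' univ (0 : ZMod p)] at h2
  simp only [sum_const, card_univ, ZMod.card, mem_univ, if_true, nsmul_eq_mul, mul_one] at h2
  have h3 : Nat.card (Sq p) = (univ.filter (fun t : ZMod p => t ≠ 0 ∧ IsSquare t)).card := by
    rw [Nat.card_eq_fintype_card, Fintype.card_subtype]
  rw [h3]
  omega

end Pool.Agent.J6H10.LM.Squares
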